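import Mathlib

/-!
# Project DP (helper24): MP_4c4335_nt, dense values of integer polynomials at generic points

`R_DPV(n, θ) ≥ exp((log n)^A)` for almost every `θ`, every `A` and all large `n`.
-/

set_option autoImplicit false

namespace Pool.Agent.K7.H24.DP

open MeasureTheory Polynomial Filter Topology

/-- the value of an integer polynomial at `e^{iθ}` -/
noncomputable def ev (P : ℤ[X]) (θ : ℝ) : ℂ :=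
  Polynomial.aeval (Complex.exp ((θ : ℂ) * Complex.I)) P

/-- the weight `∑_{j ≤ D} (1 + |c_j|)`, `D` the degree -/
def wt (P : ℤ[X]) : ℕ :=
  ∑ j ∈ Finset.range (P.natDegree + 1), (1 + (P.coeff j).natAbs)

/-- the set `S_n(θ)` of logarithms (imaginary part in `[0, 2π)`) of the values of the integer
polynomials of weight at most `n` at `e^{iθ}` -/
def S (n : ℕ) (θ : ℝ) : Set ℂ :=
  {s | ∃ P : ℤ[X], wt P ≤ n ∧ ev P θ ≠ 0 ∧ 0 ≤ s.im ∧ s.im < 2 * Real.pi ∧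
    Complex.exp s = ev P θ}

/-- property `DPV(n, R)` -/
def DPV (n : ℕ) (R : ℝ) (θ : ℝ) : Prop :=
  ∀ x y : ℝ, -Real.log R ≤ x → x ≤ 0 → 0 ≤ y → y ≤ 2 * Real.pi →
    ∃ s ∈ S n θ, ‖(⟨x, y⟩ : ℂ) - s‖ ≤ 1 / 10

/-- FINAL -/
def StFinal : Prop :=
  ∀ᵐ θ : ℝ, ∀ A : ℕ, ∀ᶠ n : ℕ in atTop, DPV n (Real.exp (Real.log n ^ A)) θ

/-- LAG: Lagrange interpolation (`Mathlib.LinearAlgebra.Lagrange`) -/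
def StLag : Prop := ∀ (m : ℕ) (P : ℂ[X]) (z : Fin m → ℂ) (w : ℂ) (M r d : ℝ),
  P.natDegree < m → 0 < d → 0 ≤ M → (∀ i j, i ≠ j → d ≤ ‖z i - z j‖) →
  (∀ i, ‖P.eval (z i)‖ ≤ M) → (∀ i, ‖w - z i‖ ≤ r) →
    ‖P.eval w‖ ≤ M * m * (r / d) ^ (m - 1)

/-- CHORD -/
def StChord : Prop := ∀ α β : ℝ,
  (|α - β| ≤ Real.pi → 2 / Real.pi * |α - β| ≤
    ‖Complex.exp ((α : ℂ) * Complex.I) - Complex.exp ((β : ℂ) * Complex.I)‖) ∧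
  ‖Complex.exp ((α : ℂ) * Complex.I) - Complex.exp ((β : ℂ) * Complex.I)‖ ≤ |α - β| ∧
  ‖Complex.exp ((α : ℂ) * Complex.I) - Complex.exp ((β : ℂ) * Complex.I)‖ ≤ 2

/-- PTS: `k < m` intervals of length `σ/m` do not cover a set of measure `σ` -/
def StPts : Prop := ∀ (T : Set ℝ) (σ : ℝ) (m : ℕ), 0 < σ → ENNReal.ofReal σ ≤ volume T →
  ∃ f : Fin m → ℝ, (∀ i, f i ∈ T) ∧ ∀ i j, i ≠ j → σ / (2 * m) ≤ |f i - f j|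

/-- REM (from LAG, CHORD, PTS): if the set has measure more than `σ = 4m²ℓ/K`, take `m` points of
it (PTS); chords at least `d = σ/(πm)`, so for `θ` in the interval
`|P| ≤ ρ/K^m * m * (πmℓ/σ)^(m-1) ≤ ρ/K^m * m * K^(m-1) ≤ ρ`. -/
def StRem : Prop := ∀ (m : ℕ) (P : ℤ[X]) (a ℓ ρ K : ℝ), P.natDegree < m → 0 < ℓ →
  ℓ ≤ Real.pi → 0 < ρ → 4 * (m : ℝ) ^ 2 ≤ K →
  (∃ θ ∈ Set.Icc a (a + ℓ), ρ < ‖ev P θ‖) →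
    volume {θ ∈ Set.Icc a (a + ℓ) | ‖ev P θ‖ ≤ ρ / K ^ m} ≤
      ENNReal.ofReal (4 * (m : ℝ) ^ 2 / K * ℓ)

/-- TOP (from LAG, CHORD, PTS): otherwise `|P| ≤ ρ` on the half circle, hence
`|P| ≤ ρ * m * (2m)^(m-1) < 1` on the circle (`σ = π`, `d = 1/m`, `r = 2`), but some coefficient
is a nonzero integer and is an average of `P(z) z^{-j}` over the circle (or roots of unity). -/
def StTop : Prop := ∀ (m : ℕ) (P : ℤ[X]) (a ρ : ℝ), P ≠ 0 → P.natDegree < m → 0 < ρ →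
  ρ * (2 * (m : ℝ)) ^ m < 1 → ∃ θ ∈ Set.Icc a (a + Real.pi), ρ < ‖ev P θ‖

/-- TREE (from REM): induction on `N` for intervals of length at most `2^N * ρ/(2Λ)` -/
def StTree : Prop := ∀ (m : ℕ) (F : Finset ℤ[X]) (E : Set ℝ) (ρ K Λ : ℝ), 1 ≤ m → 0 < ρ →
  4 * (m : ℝ) ^ 2 ≤ K → 0 < Λ → (∀ P ∈ F, P.natDegree < m) →
  (∀ P ∈ F, ∀ θ θ' : ℝ, |‖ev P θ‖ - ‖ev P θ'‖| ≤ Λ * |θ - θ'|) →
  (∀ θ ∈ E, ∃ P ∈ F, ‖ev P θ‖ ≤ ρ) →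
  (∀ θ ∈ E, ∀ P ∈ F, ‖ev P θ‖ ≤ ρ → ‖ev P θ‖ ≤ ρ / K ^ m) →
  ∀ a ℓ : ℝ, 0 < ℓ → ℓ ≤ Real.pi →
    (∀ P ∈ F, ∃ θ ∈ Set.Icc a (a + ℓ), ρ < ‖ev P θ‖) →
    volume (E ∩ Set.Icc a (a + ℓ)) ≤ ENNReal.ofReal (8 * (m : ℝ) ^ 2 / K * ℓ)

/-- PIG: pigeonhole with the coefficients `0, …, H` and squares of side `ρ/2` -/
def StPig : Prop := ∀ (m H : ℕ) (ρ θ : ℝ), 0 < ρ →
  (4 * (m : ℝ) * H / ρ + 2) ^ 2 < ((H : ℝ) + 1) ^ m →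
  ∃ P : ℤ[X], P ≠ 0 ∧ P.natDegree < m ∧ (∀ i, |P.coeff i| ≤ (H : ℤ)) ∧ ‖ev P θ‖ ≤ ρ

/-- LIP -/
def StLip : Prop := ∀ (m H : ℕ) (P : ℤ[X]), P.natDegree < m → (∀ i, |P.coeff i| ≤ (H : ℤ)) →
  ∀ θ θ' : ℝ, |‖ev P θ‖ - ‖ev P θ'‖| ≤ ((m : ℝ) ^ 2 * H) * |θ - θ'|

/-- MEAS (from TREE, TOP, PIG, LIP) -/
def StMeas : Prop := ∀ (m H : ℕ) (a ρ K : ℝ), 1 ≤ m → 1 ≤ H → 0 < ρ →
  ρ * (2 * (m : ℝ)) ^ m < 1 → 4 * (m : ℝ) ^ 2 ≤ K →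
  (4 * (m : ℝ) * H / ρ + 2) ^ 2 < ((H : ℝ) + 1) ^ m →
  volume {θ ∈ Set.Icc a (a + Real.pi) | ¬ ∃ P : ℤ[X], P ≠ 0 ∧ P.natDegree < m ∧
    (∀ i, |P.coeff i| ≤ (H : ℤ)) ∧ ρ / K ^ m ≤ ‖ev P θ‖ ∧ ‖ev P θ‖ ≤ ρ} ≤
      ENNReal.ofReal (8 * (m : ℝ) ^ 2 / K * Real.pi)

/-- the number of coefficients used at scale `t` -/
def mm (t j : ℕ) : ℕ := 4 * t / j + 4

noncomputable def KK (A j : ℕ) : ℝ := (j : ℝ) ^ (3 * A + 12)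

/-- there is a polynomial with value of size between `e^{-t}` and `K^m e^{-t}` -/
def GapAt (A j t : ℕ) (θ : ℝ) : Prop := ∃ P : ℤ[X], P ≠ 0 ∧ P.natDegree < mm t j ∧
  (∀ i, |P.coeff i| ≤ (2 : ℤ) ^ j) ∧ Real.exp (-t) ≤ ‖ev P θ‖ ∧
  ‖ev P θ‖ ≤ KK A j ^ mm t j * Real.exp (-t)

/-- the scales `t ≤ j^A` at which a polynomial is found -/
def Gap (θ : ℝ) : Prop := ∀ A : ℕ, ∀ᶠ j : ℕ in atTop, ∀ t : ℕ, t ≤ j ^ A →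
  (mm t j : ℝ) * (Real.log (KK A j) + Real.log (2 * mm t j)) + 1 ≤ t → GapAt A j t θ

/-- GAP (from MEAS; `ρ = K^m e^{-t}`, `H = 2^j`; the measures of the exceptional sets add up to
at most `C_A j^{-12}`, Borel-Cantelli on the intervals `[kπ, (k+1)π]`) -/
def StGap : Prop := ∀ᵐ θ : ℝ, Gap θ

/-- polynomials of small weight with value of size between `e^{-t}` and `j^C e^{-t}` -/
def Scale (θ : ℝ) : Prop := ∀ A : ℕ, ∃ C : ℕ, ∀ᶠ j : ℕ in atTop, ∀ t : ℝ, 0 ≤ t →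
  t ≤ (j : ℝ) ^ A → ∃ P : ℤ[X], wt P ≤ 2 ^ ((4 * A + 4) * j) ∧
    Real.exp (-t) ≤ ‖ev P θ‖ ∧ ‖ev P θ‖ ≤ (j : ℝ) ^ C * Real.exp (-t)

/-- WT: weights -/
def StWt : Prop :=
  (∀ P Q : ℤ[X], wt (P * Q) ≤ wt P * wt Q) ∧
  (∀ (m H : ℕ) (P : ℤ[X]), P.natDegree < m → (∀ i, |P.coeff i| ≤ (H : ℤ)) →
    wt P ≤ m * (1 + H)) ∧
  (∀ (L k : ℕ) (P : ℤ[X]), 1 ≤ L → wt (C (L : ℤ) * X ^ k * P) ≤ k + L * wt P) ∧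
  (∀ (P Q : ℤ[X]) (θ : ℝ), ev (P * Q) θ = ev P θ * ev Q θ) ∧
  wt 1 = 2 ∧ (∀ θ : ℝ, ev 1 θ = 1) ∧
  (∀ (L k : ℕ) (P : ℤ[X]) (θ : ℝ), ev (C (L : ℤ) * X ^ k * P) θ =
    L * Complex.exp (((k * θ : ℝ) : ℂ) * Complex.I) * ev P θ)

/-- GREEDY (from WT) -/
def StGreedy : Prop := ∀ θ : ℝ, Gap θ → Scale θ

/-- DENS -/
def StDens : Prop := ∀ θ : ℝ, Irrational (θ / Real.pi) → ∀ ε : ℝ, 0 < ε →
  ∃ k₀ : ℕ, ∀ u : ℂ, ‖u‖ = 1 → ∃ k ≤ k₀,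
    ‖Complex.exp (((k * θ : ℝ) : ℂ) * Complex.I) - u‖ ≤ ε

/-- LOGC: `w` close to a number of argument `y` in `[0, 2π]`: a logarithm of `w` with imaginary
part in `[0, 2π)`; here `y'` is `y` moved into `[1/20, 2π - 1/20]` -/
def StLogc : Prop := ∀ x y : ℝ, 0 ≤ y → y ≤ 2 * Real.pi → ∃ y' : ℝ, ∀ w : ℂ,
  ‖w - Complex.exp ⟨x, y'⟩‖ ≤ Real.exp x / 100 →
    w ≠ 0 ∧ ∃ s : ℂ, 0 ≤ s.im ∧ s.im < 2 * Real.pi ∧ Complex.exp s = w ∧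
      ‖(⟨x, y⟩ : ℂ) - s‖ ≤ 1 / 10

/-- FILL (from WT, DENS, LOGC) -/
def StFill : Prop := ∀ θ : ℝ, Irrational (θ / Real.pi) → Scale θ →
  ∀ A : ℕ, ∀ᶠ n : ℕ in atTop, DPV n (Real.exp (Real.log n ^ A)) θ

end Pool.Agent.K7.H24.DP
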